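import Mathlib
import Pool.Agent.H41.Zass
import Pool.Agent.H41.TRing

set_option autoImplicit false

namespace Pool.Agent.Results.MP_0be8ec_al.CentEssNonPI

open Pool.Agent.H41

/-- A ring `R` is centrally essential if every nonzero `a` has a central `x` such that `a * x`
is central and nonzero. -/
def IsCentrallyEssential (R : Type) [Ring R] : Prop :=
  ∀ a : R, a ≠ 0 → ∃ x ∈ Subring.center R, ∃ y ∈ Subring.center R, a * x = y ∧ y ≠ 0

/-- `R` is a ring with polynomial identity: there is a polynomial `f` in finitely many noncommuting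
variables with integer coefficients, some monomial `w` of maximal degree of which has
coefficient `1`, such that `f` vanishes under every substitution of elements of `R`. -/
def IsPIRing (R : Type) [Ring R] : Prop :=
  ∃ (n : ℕ) (f : MonoidAlgebra ℤ (FreeMonoid (Fin n))),
    (∃ w : FreeMonoid (Fin n), f.coeff w = 1 ∧
      ∀ w' : FreeMonoid (Fin n), f.coeff w' ≠ 0 → w'.length ≤ w.length) ∧
    ∀ r : Fin n → R, MonoidAlgebra.lift ℤ R (FreeMonoid (Fin n)) (FreeMonoid.lift r) f = 0

lemma centrallyEssential_of_equiv {R S : Type} [Ring R] [Ring S] (e : R ≃+* S)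
    (h : IsCentrallyEssential R) : IsCentrallyEssential S := by
  have hc : ∀ x ∈ Subring.center R, e x ∈ Subring.center S := by
    intro x hx
    rw [Subring.mem_center_iff] at hx ⊢
    intro g
    obtain ⟨g', rfl⟩ := e.surjective g
    rw [← map_mul, ← map_mul, hx]
  intro a ha
  obtain ⟨x, hx, y, hy, hxy, hy0⟩ := h (e.symm a) (fun h0 => ha (by
    have := congrArg e h0
    simpa using this))
  refine ⟨e x, hc x hx, e y, hc y hy, ?_, fun h0 => hy0 (by simpa using h0)⟩
  rw [← hxy, map_mul, RingEquiv.apply_symm_apply]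

/-- The integral ring `RR` is centrally essential. -/
lemma RR_ce : IsCentrallyEssential TRing.RR := by
  intro a ha
  have ha' : (a : TRing.E) ≠ 0 := fun h => ha (Subtype.ext h)
  obtain ⟨r, h0, h1, hne, hord⟩ := TRing.cent_ess ha'
  refine ⟨⟨TRing.bs (TRing.tt r h0 h1), TRing.bs_mem _⟩, ?_,
    ⟨(a : TRing.E) * TRing.bs (TRing.tt r h0 h1), TRing.RR.mul_mem a.2 (TRing.bs_mem _)⟩, ?_, rfl, ?_⟩
  · rw [Subring.mem_center_iff]
    intro g
    exact Subtype.ext (TRing.tt_comm r h0 h1 g.1).symm
  · rw [Subring.mem_center_iff]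
    intro g
    apply Subtype.ext
    have := TRing.top_mul hord g.1
    exact this.2.trans this.1.symm
  · intro h
    exact hne (congrArg Subtype.val h)

/-- No nonzero polynomial in noncommuting variables vanishes on `RR`. -/
lemma RR_no_identity (n : ℕ) (f : MonoidAlgebra ℤ (FreeMonoid (Fin n))) (w : FreeMonoid (Fin n))
    (hw : f.coeff w ≠ 0) :
    ∃ r : Fin n → TRing.RR,
      MonoidAlgebra.lift ℤ TRing.RR (FreeMonoid (Fin n)) (FreeMonoid.lift r) f ≠ 0 := by
  classical
  set d : ℕ := f.coeff.support.sup (fun v => v.length) with hd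
  have hdle : ∀ v ∈ f.coeff.support, v.length ≤ d := fun v hv => Finset.le_sup (f := fun v => FreeMonoid.length v) hv
  set q : ℚ := 1 / ((d : ℚ) + 1) with hq
  have hq0 : 0 < q := by positivity
  have hq1 : q ≤ 1 := by
    rw [hq, div_le_one (by positivity)]
    have : (0 : ℚ) ≤ d := by positivity
    linarith
  have hlen : ∀ v ∈ f.coeff.support, (v.length : ℚ) * q ≤ 1 := by
    intro v hv
    have h1 : (v.length : ℚ) ≤ d := by exact_mod_cast hdle v hv
    rw [hq, mul_one_div, div_le_one (by positivity)]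
    linarith
  let rr : Fin n → TRing.E := fun i => TRing.bs ⟨[i.1], q, hq0.le, hq1, fun h => absurd h hq0.ne'⟩
  let r : Fin n → TRing.RR := fun i => ⟨rr i, TRing.bs_mem _⟩
  refine ⟨r, fun h => ?_⟩
  have h2 : ∀ v : FreeMonoid (Fin n), ((FreeMonoid.lift r v : TRing.RR) : TRing.E) = FreeMonoid.lift rr v := by
    intro v
    have : (TRing.RR.subtype : TRing.RR →* TRing.E).comp (FreeMonoid.lift r) = FreeMonoid.lift rr := by
      apply FreeMonoid.hom_eq
      intro i
      simp [r]
    exact DFunLike.congr_fun this v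
  have h3 : ∑ v ∈ f.coeff.support, (f.coeff v) • (FreeMonoid.lift rr v) = 0 := by
    have := congrArg (Subtype.val) h
    rw [MonoidAlgebra.lift_apply, Finsupp.sum] at this
    have h4 : ((∑ v ∈ f.coeff.support, (f.coeff v) • (FreeMonoid.lift r v) : TRing.RR) : TRing.E) =
        ∑ v ∈ f.coeff.support, (f.coeff v) • (FreeMonoid.lift rr v) := by
      rw [AddSubmonoidClass.coe_finset_sum]
      refine Finset.sum_congr rfl (fun v _ => ?_)
      rw [← h2]
      rfl
    rw [← h4]
    exact this
  have hws : w ∈ f.coeff.support := Finsupp.mem_support_iff.2 hw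
  obtain ⟨hh, ew⟩ := TRing.prod_bs q hq0 hq1 w (hlen w hws)
  set b : TRing.Mon := ⟨(FreeMonoid.toList w).map (fun i => i.1), (w.length : ℚ) * q, by positivity, hlen w hws, hh⟩ with hb
  have h5 := congrArg (TRing.co b) h3
  rw [map_sum, map_zero, Finset.sum_eq_single w] at h5
  · have e1 : FreeMonoid.lift rr w = TRing.bs b := ew
    rw [map_zsmul, e1, TRing.co_bs, if_pos rfl, zsmul_eq_mul, mul_one] at h5
    exact hw (by exact_mod_cast h5)
  · intro v hv hvw
    obtain ⟨hh', ev⟩ := TRing.prod_bs q hq0 hq1 v (hlen v hv)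
    have e1 : FreeMonoid.lift rr v = _ := ev
    rw [map_zsmul, e1, TRing.co_bs, if_neg, smul_zero]
    intro h6
    apply hvw
    have h7 : (FreeMonoid.toList v).map (fun i => i.1) = (FreeMonoid.toList w).map (fun i => i.1) :=
      congrArg TRing.Mon.w h6
    have h8 := List.map_injective_iff.2 Fin.val_injective h7
    exact FreeMonoid.toList.injective h8
  · intro h6; exact absurd hws h6

lemma not_PI_of_equiv {S : Type} [Ring S] (e : TRing.RR ≃+* S) : ¬ IsPIRing S := by
  rintro ⟨n, f, ⟨w, hw, -⟩, hf⟩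
  obtain ⟨r, hr⟩ := RR_no_identity n f w (by rw [hw]; exact one_ne_zero)
  apply hr
  have h1 := hf (fun i => e (r i))
  have h2 : MonoidAlgebra.lift ℤ S (FreeMonoid (Fin n)) (FreeMonoid.lift (fun i => e (r i))) f =
      e (MonoidAlgebra.lift ℤ TRing.RR (FreeMonoid (Fin n)) (FreeMonoid.lift r) f) := by
    rw [MonoidAlgebra.lift_apply, MonoidAlgebra.lift_apply, Finsupp.sum, Finsupp.sum, map_sum]
    refine Finset.sum_congr rfl (fun v _ => ?_)
    rw [map_zsmul]
    congr 1
    have : (e : TRing.RR →* S).comp (FreeMonoid.lift r) = FreeMonoid.lift (fun i => e (r i)) := by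
      apply FreeMonoid.hom_eq
      intro i
      simp
    exact (DFunLike.congr_fun this v).symm
  rw [h2] at h1
  simpa using h1

/-- There is a countable torsion-free abelian group whose endomorphism ring is centrally essential
but is not a ring with polynomial identity. -/
theorem result : ∃ (A : Type) (_ : AddCommGroup A), Countable A ∧
    (∀ (n : ℤ) (a : A), n • a = 0 → n = 0 ∨ a = 0) ∧
    IsCentrallyEssential (AddMonoid.End A) ∧ ¬ IsPIRing (AddMonoid.End A) := by
  classical
  -- enumeration of the nilpotent basis elements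
  haveI : Countable {a : TRing.Mon // 0 < a.q} := inferInstance
  haveI : Nonempty {a : TRing.Mon // 0 < a.q} :=
    ⟨⟨TRing.tt 1 zero_le_one le_rfl, by show (0 : ℚ) < 1; exact zero_lt_one⟩⟩
  obtain ⟨g, hg⟩ := exists_surjective_nat {a : TRing.Mon // 0 < a.q}
  let kk : {a : TRing.Mon // 0 < a.q} → ℕ := fun a => Classical.choose (TRing.bs_nilp a.1 a.2)
  have hkk : ∀ a : {a : TRing.Mon // 0 < a.q}, TRing.bs a.1 ^ kk a = 0 := fun a =>
    Classical.choose_spec (TRing.bs_nilp a.1 a.2)
  let idx : ℕ → {a : TRing.Mon // 0 < a.q} := fun p => g (Nat.unpair (Nat.count Nat.Prime p)).1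
  let D : Zass.Data TRing.RR :=
    { s := fun p => TRing.bs (idx p).1
      k := fun p => kk (idx p)
      hsR := fun p => TRing.bs_mem _
      hs := fun p => hkk (idx p) }
  have hbsinj : Function.Injective TRing.bs := by
    intro a b h
    have := congrArg (TRing.co b) h
    rw [TRing.co_bs, TRing.co_bs, if_pos rfl] at this
    by_contra hne
    rw [if_neg hne] at this
    exact absurd this (by norm_num)
  have hsurj : Function.Surjective (Zass.toEnd D) := by
    refine Zass.toEnd_surjective D TRing.sep TRing.clear TRing.tf TRing.divi TRing.TT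
      TRing.span_RR ?_ ?_ ?_
    · rintro _ ⟨a, _, rfl⟩; exact TRing.bs_mem a
    · rintro _ ⟨a, ha, rfl⟩ n
      obtain ⟨i, hi⟩ := hg ⟨a, ha⟩
      refine ⟨Nat.nth Nat.Prime (Nat.pair i n), ?_, Nat.prime_nth_prime _, ?_⟩
      · have h1 := Nat.add_two_le_nth_prime (Nat.pair i n)
        have h2 := Nat.right_le_pair i n
        omega
      · show TRing.bs (g (Nat.unpair (Nat.count Nat.Prime (Nat.nth Nat.Prime (Nat.pair i n)))).1).1 = TRing.bs a
        rw [Nat.count_nth_of_infinite Nat.infinite_setOf_prime, Nat.unpair_pair, hi]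
    · rintro _ ⟨a, ha, rfl⟩
      refine ⟨kk ⟨a, ha⟩, fun p _ h => ?_⟩
      have h1 : (idx p).1 = a := hbsinj h
      have h2 : idx p = ⟨a, ha⟩ := Subtype.ext h1
      show kk (idx p) = _
      rw [h2]
  have e : TRing.RR ≃+* AddMonoid.End (Zass.grp D) :=
    RingEquiv.ofBijective (Zass.toEnd D) ⟨Zass.toEnd_injective D, hsurj⟩
  refine ⟨Zass.grp D, inferInstance, ?_, ?_, centrallyEssential_of_equiv e RR_ce, not_PI_of_equiv e⟩
  · exact (inferInstance : Countable (Zass.grp D))
  · intro n a h
    by_cases hn : n = 0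
    · exact Or.inl hn
    · right
      have h1 : (n : ℚ) • (a : TRing.E) = 0 := by
        have := congrArg Subtype.val h
        rw [AddSubgroup.coe_zsmul] at this
        rw [Int.cast_smul_eq_zsmul ℚ n (a : TRing.E)]
        exact this
      exact Subtype.ext ((smul_eq_zero.1 h1).resolve_left (by exact_mod_cast hn))

end Pool.Agent.Results.MP_0be8ec_al.CentEssNonPI
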